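import Pool.Agent.Helper85.ProP.TopStmts

/-! MP_ac806c_lc, packet H, second part: `StmtHyp`. -/

set_option autoImplicit false

namespace Pool.Agent.Helper49.ProP

open Pool.Agent.Helper85.ProP IsLocalRing

variable {p : ℕ} [Fact p.Prime] {d : ℕ}

theorem coeff_rhoS (α : Fin d → ℤ_[p]) (n : Fin d →₀ ℕ) :
    MvPowerSeries.coeff n (rhoS p d α) = ∏ i, Ring.choose (α i) (n i) := rfl

theorem rhoS_zero : rhoS p d 0 = 1 := by
  ext1 n
  rw [coeff_rhoS, MvPowerSeries.coeff_one]
  simp only [Pi.zero_apply, Ring.choose_zero_ite]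
  by_cases h : n = 0
  · subst h; simp
  · rw [if_neg h]
    obtain ⟨i, hi⟩ : ∃ i, n i ≠ 0 := by
      by_contra hcon
      push Not at hcon
      exact h (Finsupp.ext hcon)
    exact Finset.prod_eq_zero (Finset.mem_univ i) (if_neg hi)

theorem rhoS_add (a b : Fin d → ℤ_[p]) : rhoS p d (a + b) = rhoS p d a * rhoS p d b := by
  classical
  ext1 n
  rw [coeff_rhoS, MvPowerSeries.coeff_mul]
  simp only [Pi.add_apply]
  have h1 : ∀ i, Ring.choose (a i + b i) (n i) =
      ∑ ij ∈ Finset.HasAntidiagonal.antidiagonal (n i), Ring.choose (a i) ij.1 * Ring.choose (b i) ij.2 :=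
    fun i => Ring.add_choose_eq _ (Commute.all _ _)
  simp only [h1]
  rw [Finset.prod_univ_sum]
  refine Finset.sum_bij' (i := fun x _ => (Finsupp.equivFunOnFinite.symm fun i => (x i).1,
    Finsupp.equivFunOnFinite.symm fun i => (x i).2)) (j := fun y _ => fun i => (y.1 i, y.2 i))
    ?_ ?_ ?_ ?_ ?_
  · intro x hx
    rw [Fintype.mem_piFinset] at hx
    rw [Finset.HasAntidiagonal.mem_antidiagonal]
    ext i
    exact Finset.HasAntidiagonal.mem_antidiagonal.mp (hx i)
  · intro y hy
    rw [Finset.HasAntidiagonal.mem_antidiagonal] at hy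
    rw [Fintype.mem_piFinset]
    intro i
    rw [Finset.HasAntidiagonal.mem_antidiagonal]
    exact DFunLike.congr_fun hy i
  · intro x hx
    rfl
  · intro y hy
    exact Prod.ext (Finsupp.ext fun i => rfl) (Finsupp.ext fun i => rfl)
  · intro x hx
    rw [coeff_rhoS, coeff_rhoS, ← Finset.prod_mul_distrib]
    rfl

theorem constantCoeff_rhoS (α : Fin d → ℤ_[p]) :
    MvPowerSeries.constantCoeff (rhoS p d α) = 1 := by
  rw [← MvPowerSeries.coeff_zero_eq_constantCoeff_apply, coeff_rhoS]
  simp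

theorem mem_maximalIdeal_iff (f : MvPowerSeries (Fin d) ℤ_[p]) :
    f ∈ maximalIdeal (MvPowerSeries (Fin d) ℤ_[p]) ↔
      MvPowerSeries.constantCoeff f ∈ maximalIdeal ℤ_[p] := by
  rw [mem_maximalIdeal, mem_nonunits_iff, mem_maximalIdeal, mem_nonunits_iff,
    MvPowerSeries.isUnit_iff_constantCoeff]

theorem p_mem : (p : MvPowerSeries (Fin d) ℤ_[p]) ∈
    maximalIdeal (MvPowerSeries (Fin d) ℤ_[p]) := by
  rw [mem_maximalIdeal_iff, map_natCast]
  exact PadicInt.p_nonunit

theorem rhoS_single (i : Fin d) : rhoS p d (Pi.single i 1) = 1 + MvPowerSeries.X i := by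
  classical
  ext1 n
  rw [coeff_rhoS, map_add, MvPowerSeries.coeff_one, MvPowerSeries.coeff_X]
  have h1 : ∀ j, Ring.choose ((Pi.single i (1 : ℤ_[p]) : Fin d → ℤ_[p]) j) (n j) =
      if j = i then (if n j ≤ 1 then 1 else 0) else (if n j = 0 then 1 else 0) := by
    intro j
    by_cases hj : j = i
    · subst hj
      rw [if_pos rfl, Pi.single_eq_same]
      have h2 : Ring.choose (1 : ℤ_[p]) (n j) = ((Nat.choose 1 (n j) : ℕ) : ℤ_[p]) := by
        rw [← Ring.choose_natCast, Nat.cast_one]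
      rw [h2]
      rcases Nat.lt_or_ge 1 (n j) with h | h
      · rw [Nat.choose_eq_zero_of_lt h, if_neg (by omega), Nat.cast_zero]
      · rw [if_pos h]
        interval_cases (n j) <;> simp
    · rw [if_neg hj, Pi.single_eq_of_ne hj, Ring.choose_zero_ite]
  simp only [h1]
  by_cases hn0 : n = 0
  · subst hn0
    rw [if_pos rfl, if_neg]
    · rw [add_zero]
      refine Finset.prod_eq_one fun j _ => ?_
      by_cases hj : j = i <;> simp [hj]
    · intro h
      have := DFunLike.congr_fun h i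
      simp at this
  · rw [if_neg hn0, zero_add]
    by_cases hn1 : n = Finsupp.single i 1
    · rw [if_pos hn1]
      refine Finset.prod_eq_one fun j _ => ?_
      subst hn1
      by_cases hj : j = i
      · subst hj; simp
      · rw [if_neg hj, if_pos]
        rw [Finsupp.single_eq_of_ne hj]
    · rw [if_neg hn1]
      by_contra hcon
      have h2 : ∀ j, (if j = i then (if n j ≤ 1 then (1 : ℤ_[p]) else 0)
          else (if n j = 0 then 1 else 0)) ≠ 0 := by
        intro j
        exact (Finset.prod_ne_zero_iff.mp hcon) j (Finset.mem_univ j)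
      have h3 : ∀ j, j ≠ i → n j = 0 := by
        intro j hj
        have := h2 j
        rw [if_neg hj] at this
        by_contra h4
        exact this (if_neg h4)
      have h4 : n i ≤ 1 := by
        have := h2 i
        rw [if_pos rfl] at this
        by_contra h5
        exact this (if_neg h5)
      rcases Nat.lt_or_ge (n i) 1 with h5 | h5
      · apply hn0
        ext j
        by_cases hj : j = i
        · subst hj; simp; omega
        · rw [h3 j hj]; rfl
      · apply hn1
        ext j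
        by_cases hj : j = i
        · subst hj; simp; omega
        · rw [h3 j hj, Finsupp.single_eq_of_ne hj]

open Classical in
/-- the part of `f` with first variable `i` -/
noncomputable def part (f : MvPowerSeries (Fin d) ℤ_[p]) (i : Fin d) :
    MvPowerSeries (Fin d) ℤ_[p] :=
  fun n => if n i ≠ 0 ∧ ∀ j < i, n j = 0 then MvPowerSeries.coeff n f else 0

theorem coeff_part (f : MvPowerSeries (Fin d) ℤ_[p]) (i : Fin d) (n : Fin d →₀ ℕ) [Decidable (n i ≠ 0 ∧ ∀ j < i, n j = 0)] :
    MvPowerSeries.coeff n (part f i) =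
      if n i ≠ 0 ∧ ∀ j < i, n j = 0 then MvPowerSeries.coeff n f else 0 := by
  rw [MvPowerSeries.coeff_apply (part f i)]
  unfold part
  congr

theorem eq_sum_part (f : MvPowerSeries (Fin d) ℤ_[p]) :
    f = MvPowerSeries.C (MvPowerSeries.constantCoeff f) + ∑ i, part f i := by
  classical
  ext1 n
  rw [map_add, map_sum, MvPowerSeries.coeff_C]
  simp only [coeff_part]
  by_cases hn : n = 0
  · subst hn
    rw [if_pos rfl]
    simp
  · rw [if_neg hn, zero_add]
    obtain ⟨i, hi⟩ : ∃ i, n i ≠ 0 := by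
      by_contra hcon
      push Not at hcon
      exact hn (Finsupp.ext hcon)
    let S : Finset (Fin d) := Finset.univ.filter fun i => n i ≠ 0
    have hS : S.Nonempty := ⟨i, by simp [S, hi]⟩
    let i0 := S.min' hS
    have hi0 : n i0 ≠ 0 := by
      have := S.min'_mem hS
      exact (Finset.mem_filter.mp this).2
    have hmin : ∀ j < i0, n j = 0 := by
      intro j hj
      by_contra h
      have : i0 ≤ j := S.min'_le j (by simp [S, h])
      exact absurd hj (not_lt.mpr this)
    rw [Finset.sum_eq_single i0]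
    · rw [if_pos ⟨hi0, hmin⟩]
    · intro j _ hj
      rw [if_neg]
      rintro ⟨h1, h2⟩
      rcases lt_trichotomy j i0 with h | h | h
      · exact h1 (hmin j h)
      · exact hj h
      · exact hi0 (h2 i0 h)
    · intro h
      exact absurd (Finset.mem_univ _) h

theorem X_dvd_part (f : MvPowerSeries (Fin d) ℤ_[p]) (i : Fin d) :
    MvPowerSeries.X i ∣ part f i := by
  classical
  rw [MvPowerSeries.X_dvd_iff]
  intro m hm
  rw [coeff_part, if_neg]
  rintro ⟨h, _⟩
  exact h hm

theorem gen : maximalIdeal (MvPowerSeries (Fin d) ℤ_[p]) ≤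
    Ideal.span ({(p : MvPowerSeries (Fin d) ℤ_[p])} ∪ Set.range fun a => rhoS p d a - 1) := by
  intro f hf
  rw [eq_sum_part f]
  refine Ideal.add_mem _ ?_ (Ideal.sum_mem _ fun i _ => ?_)
  · rw [mem_maximalIdeal_iff, PadicInt.maximalIdeal_eq_span_p, Ideal.mem_span_singleton] at hf
    obtain ⟨c, hc⟩ := hf
    rw [hc, map_mul, map_natCast]
    exact Ideal.mul_mem_right _ _ (Ideal.subset_span (Or.inl rfl))
  · obtain ⟨c, hc⟩ := X_dvd_part f i
    rw [hc]
    refine Ideal.mul_mem_right _ _ (Ideal.subset_span (Or.inr ⟨Pi.single i 1, ?_⟩))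
    simp only [rhoS_single]
    ring

theorem residue : Finite (MvPowerSeries (Fin d) ℤ_[p] ⧸
    maximalIdeal (MvPowerSeries (Fin d) ℤ_[p])) := by
  refine Finite.of_surjective (fun k : Fin p => Ideal.Quotient.mk
    (maximalIdeal (MvPowerSeries (Fin d) ℤ_[p])) ((k : ℕ) : MvPowerSeries (Fin d) ℤ_[p])) ?_
  intro y
  obtain ⟨f, rfl⟩ := Ideal.Quotient.mk_surjective y
  obtain ⟨n, hn, hn'⟩ := PadicInt.exists_mem_range (MvPowerSeries.constantCoeff f)
  refine ⟨⟨n, hn⟩, ?_⟩
  rw [eq_comm, Ideal.Quotient.eq, mem_maximalIdeal_iff, map_sub, map_natCast]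
  exact hn'

theorem isPrecomplete_pi (ι : Type) [Fintype ι] :
    IsPrecomplete (maximalIdeal ℤ_[p]) (ι → ℤ_[p]) := by
  classical
  constructor
  intro f hf
  set I := maximalIdeal ℤ_[p] with hI
  have h1 : ∀ i : ι, ∃ L : ℤ_[p], ∀ n : ℕ, f n i ≡ L [SMOD I ^ n • (⊤ : Submodule ℤ_[p] ℤ_[p])] := by
    intro i
    refine IsPrecomplete.prec' (fun n => f n i) ?_
    intro m n hmn
    have h2 := hf hmn
    rw [SModEq.sub_mem] at h2 ⊢
    have h3 : I ^ m • (⊤ : Submodule ℤ_[p] (ι → ℤ_[p])) ≤
        Submodule.comap (LinearMap.proj i) (I ^ m • (⊤ : Submodule ℤ_[p] ℤ_[p])) := by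
      rw [Submodule.smul_le]
      intro r hr x _
      rw [Submodule.mem_comap, map_smul]
      exact Submodule.smul_mem_smul hr trivial
    exact h3 h2
  choose L hL using h1
  refine ⟨L, fun n => ?_⟩
  rw [SModEq.sub_mem]
  have h4 : f n - L = ∑ i, (f n i - L i) • (Pi.single i (1 : ℤ_[p]) : ι → ℤ_[p]) := by
    ext j
    rw [Finset.sum_apply, Finset.sum_eq_single j]
    · simp
    · intro k _ hk
      simp [Pi.single_eq_of_ne hk.symm]
    · intro h
      exact absurd (Finset.mem_univ _) h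
  rw [h4]
  refine Submodule.sum_mem _ fun i _ => ?_
  refine Submodule.smul_mem_smul ?_ trivial
  have h5 := hL i n
  rw [SModEq.sub_mem] at h5
  simpa using h5

theorem fin (P : Ideal (MvPowerSeries (Fin d) ℤ_[p]))
    (hP : Finite (MvPowerSeries (Fin d) ℤ_[p] ⧸ (P ⊔ Ideal.span {(p : MvPowerSeries (Fin d) ℤ_[p])}))) :
    Module.Finite ℤ_[p] (MvPowerSeries (Fin d) ℤ_[p] ⧸ P) := by
  classical
  set R := MvPowerSeries (Fin d) ℤ_[p] with hR
  have hnoeth : IsNoetherianRing R := MvPowerSeries.isNoetherianRing _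
  by_cases htop : P = ⊤
  · subst htop
    have : Subsingleton (R ⧸ (⊤ : Ideal R)) := Ideal.Quotient.subsingleton_iff.mpr rfl
    infer_instance
  have hnt : Nontrivial (R ⧸ P) := Ideal.Quotient.nontrivial_iff.mpr htop
  have hloc : IsLocalRing (R ⧸ P) :=
    IsLocalRing.of_surjective' (Ideal.Quotient.mk P) Ideal.Quotient.mk_surjective
  have hlochom : IsLocalHom (Ideal.Quotient.mk P) :=
    IsLocalHom.of_surjective _ Ideal.Quotient.mk_surjective
  set I := maximalIdeal ℤ_[p] with hI
  -- `I ^ n • ⊤ ≤ 𝔪 ^ n`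
  have hpm : (p : R ⧸ P) ∈ maximalIdeal (R ⧸ P) := by
    rw [mem_maximalIdeal, mem_nonunits_iff]
    intro hu
    have h1 : IsUnit (Ideal.Quotient.mk P (p : R)) := by rw [map_natCast]; exact hu
    have h2 := isUnit_of_map_unit (Ideal.Quotient.mk P) _ h1
    exact (mem_nonunits_iff.mp ((mem_maximalIdeal _).mp (p_mem (p := p) (d := d)))) h2
  have hle : ∀ (n : ℕ) (x : R ⧸ P), x ∈ I ^ n • (⊤ : Submodule ℤ_[p] (R ⧸ P)) →
      x ∈ maximalIdeal (R ⧸ P) ^ n := by
    intro n x hx
    have h1 : I ^ n • (⊤ : Submodule ℤ_[p] (R ⧸ P)) ≤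
        (Submodule.restrictScalars ℤ_[p] (maximalIdeal (R ⧸ P) ^ n : Ideal (R ⧸ P))) := by
      rw [Submodule.smul_le]
      intro r hr y _
      rw [hI, PadicInt.maximalIdeal_eq_span_p, Ideal.span_singleton_pow,
        Ideal.mem_span_singleton] at hr
      obtain ⟨c, rfl⟩ := hr
      rw [Submodule.restrictScalars_mem, mul_smul, ← Nat.cast_pow,
        Nat.cast_smul_eq_nsmul ℤ_[p], nsmul_eq_mul, Nat.cast_pow]
      exact Ideal.mul_mem_right _ _ (Ideal.pow_mem_pow hpm n)
    exact h1 hx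
  have hHaus : IsHausdorff I (R ⧸ P) := by
    constructor
    intro x hx
    have h1 : x ∈ ⨅ n : ℕ, maximalIdeal (R ⧸ P) ^ n := by
      rw [Ideal.mem_iInf]
      intro n
      have h2 := hx n
      rw [SModEq.zero] at h2
      exact hle n x h2
    rw [Ideal.iInf_pow_eq_bot_of_isLocalRing _ (maximalIdeal.isMaximal _).ne_top] at h1
    exact h1
  set S := R ⧸ (P ⊔ Ideal.span {(p : R)}) with hS
  have hfS : Fintype S := Fintype.ofFinite S
  have hpre : IsPrecomplete I (S → ℤ_[p]) := isPrecomplete_pi S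
  have hlift : ∀ s : S, ∃ r : R, Ideal.Quotient.mk (P ⊔ Ideal.span {(p : R)}) r = s :=
    fun s => Ideal.Quotient.mk_surjective s
  choose r hr using hlift
  let f : (S → ℤ_[p]) →ₗ[ℤ_[p]] (R ⧸ P) :=
    Fintype.linearCombination ℤ_[p] (fun s => Ideal.Quotient.mk P (r s))
  have hsurj : Function.Surjective f := by
    refine surjective_of_mkQ_comp_surjective (I := I) ?_
    intro y
    obtain ⟨a, rfl⟩ := Submodule.mkQ_surjective _ y
    obtain ⟨b, rfl⟩ := Ideal.Quotient.mk_surjective a
    refine ⟨Pi.single (Ideal.Quotient.mk _ b) 1, ?_⟩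
    rw [LinearMap.comp_apply, Submodule.mkQ_apply, Submodule.mkQ_apply, Submodule.Quotient.eq]
    have h1 : f (Pi.single (Ideal.Quotient.mk _ b) 1) =
        Ideal.Quotient.mk P (r (Ideal.Quotient.mk _ b)) := by
      simp [f, Fintype.linearCombination_apply, Pi.single_apply]
    rw [h1, ← map_sub]
    have h2 : r (Ideal.Quotient.mk _ b) - b ∈ P ⊔ Ideal.span {(p : R)} := by
      rw [← Ideal.Quotient.eq, hr]
    obtain ⟨u, hu, v, hv, huv⟩ := Submodule.mem_sup.mp h2
    rw [← huv, map_add, Ideal.Quotient.eq_zero_iff_mem.mpr hu, zero_add]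
    obtain ⟨c, rfl⟩ := Ideal.mem_span_singleton.mp hv
    have h3 : Ideal.Quotient.mk P ((p : R) * c) = (p : ℤ_[p]) • Ideal.Quotient.mk P c := by
      rw [Nat.cast_smul_eq_nsmul ℤ_[p], nsmul_eq_mul, map_mul, map_natCast]
    rw [h3]
    refine Submodule.smul_mem_smul ?_ trivial
    rw [hI, PadicInt.maximalIdeal_eq_span_p]
    exact Ideal.mem_span_singleton_self _
  exact Module.Finite.of_surjective f hsurj

theorem stmtHyp : StmtHyp := by
  intro p d _
  refine ⟨⟨rhoS_zero, rhoS_add, ?_, p_mem, gen, residue, fin⟩, rhoS_single⟩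
  intro a
  rw [mem_maximalIdeal_iff, map_sub, constantCoeff_rhoS, map_one, sub_self]
  exact Ideal.zero_mem _

end Pool.Agent.Helper49.ProP
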