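import Pool.Agent.Helper85.ProP.TopStmts

/-! MP_ac806c_lc, packet H, first part: `StmtPoint`. -/

set_option autoImplicit false

namespace Pool.Agent.Helper49.ProP

open Pool.Agent.Helper85.ProP IsLocalRing Polynomial

variable {p : ℕ} [Fact p.Prime]

theorem norm_algebraMap_le (a : ℤ_[p]) : ‖algebraMap ℤ_[p] (PadicAlgCl p) a‖ ≤ 1 := by
  rw [IsScalarTower.algebraMap_apply ℤ_[p] ℚ_[p] (PadicAlgCl p)]
  have h := PadicAlgCl.norm_extends p (algebraMap ℤ_[p] ℚ_[p] a)
  rw [h]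
  exact a.2

theorem norm_le_one_of_integral {y : PadicAlgCl p} (hy : IsIntegral ℤ_[p] y) : ‖y‖ ≤ 1 := by
  obtain ⟨f, hf, hfy⟩ := hy
  by_contra hcon
  push Not at hcon
  have hn : f.natDegree ≠ 0 := by
    intro h0
    rw [hf.natDegree_eq_zero.mp h0, eval₂_one] at hfy
    exact one_ne_zero hfy
  obtain ⟨n, hn'⟩ : ∃ n, f.natDegree = n + 1 := ⟨f.natDegree - 1, by omega⟩
  rw [hf.as_sum, eval₂_add, eval₂_X_pow, eval₂_finsetSum, hn'] at hfy
  have h1 : y ^ (n + 1) = -∑ i ∈ Finset.range (n + 1),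
      eval₂ (algebraMap ℤ_[p] (PadicAlgCl p)) y (C (f.coeff i) * X ^ i) :=
    eq_neg_of_add_eq_zero_left hfy
  have h2 : ‖y ^ (n + 1)‖ ≤ ‖y‖ ^ n := by
    rw [h1, norm_neg]
    refine IsUltrametricDist.norm_sum_le_of_forall_le_of_nonneg (by positivity) fun i hi => ?_
    rw [eval₂_mul, eval₂_C, eval₂_X_pow, norm_mul, norm_pow]
    calc ‖algebraMap ℤ_[p] (PadicAlgCl p) (f.coeff i)‖ * ‖y‖ ^ i ≤ 1 * ‖y‖ ^ n := by
          refine mul_le_mul (norm_algebraMap_le _) ?_ (by positivity) zero_le_one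
          exact pow_le_pow_right₀ hcon.le (by rw [Finset.mem_range] at hi; omega)
      _ = ‖y‖ ^ n := one_mul _
  rw [norm_pow, pow_succ] at h2
  have h3 : 0 < ‖y‖ ^ n := by positivity
  nlinarith

theorem stmtPoint : StmtPoint := by
  intro p _ R _ _ q hq hpq hfin
  have : q.IsPrime := hq
  have : IsDomain (R ⧸ q) := Ideal.Quotient.isDomain q
  have hint : Algebra.IsIntegral ℤ_[p] (R ⧸ q) := inferInstance
  -- the algebra map is injective
  have hinj : Function.Injective (algebraMap ℤ_[p] (R ⧸ q)) := by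
    rw [injective_iff_map_eq_zero]
    intro x hx
    by_contra hx0
    have h1 := PadicInt.unitCoeff_spec hx0
    rw [h1, map_mul, map_pow, map_natCast] at hx
    have h2 : IsUnit (algebraMap ℤ_[p] (R ⧸ q) (PadicInt.unitCoeff hx0)) :=
      (PadicInt.unitCoeff hx0).isUnit.map _
    have h3 : ((p : R ⧸ q)) ^ x.valuation = 0 := (h2.mul_right_eq_zero).mp hx
    have h4 : (p : R ⧸ q) = 0 := eq_zero_of_pow_eq_zero h3
    apply hpq
    rw [← Ideal.Quotient.eq_zero_iff_mem, map_natCast]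
    exact h4
  have hT1 : Module.IsTorsionFree ℤ_[p] (R ⧸ q) :=
    Module.isTorsionFree_iff_algebraMap_injective.mpr hinj
  have hinj2 : Function.Injective (algebraMap ℤ_[p] (PadicAlgCl p)) := by
    rw [IsScalarTower.algebraMap_eq ℤ_[p] ℚ_[p] (PadicAlgCl p)]
    exact (algebraMap ℚ_[p] (PadicAlgCl p)).injective.comp
      (FaithfulSMul.algebraMap_injective ℤ_[p] ℚ_[p])
  have hT2 : Module.IsTorsionFree ℤ_[p] (PadicAlgCl p) :=
    Module.isTorsionFree_iff_algebraMap_injective.mpr hinj2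
  let ψ : (R ⧸ q) →ₐ[ℤ_[p]] PadicAlgCl p := IsAlgClosed.lift
  have hψ : Function.Injective ψ := by
    have h1 : RingHom.ker (ψ : (R ⧸ q) →+* PadicAlgCl p) = ⊥ := by
      refine Ideal.eq_bot_of_comap_eq_bot (R := ℤ_[p]) ?_
      rw [eq_bot_iff]
      intro x hx
      rw [Ideal.mem_comap, RingHom.mem_ker] at hx
      have h2 : ψ (algebraMap ℤ_[p] (R ⧸ q) x) = 0 := hx
      rw [ψ.commutes] at h2
      rw [Ideal.mem_bot]
      exact hinj2 (by rw [h2, map_zero])
    exact (RingHom.injective_iff_ker_eq_bot _).mpr h1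
  refine ⟨(ψ : (R ⧸ q) →+* PadicAlgCl p).comp (Ideal.Quotient.mk q), ?_, ?_⟩
  · ext x
    rw [RingHom.mem_ker, RingHom.comp_apply]
    constructor
    · intro h
      have h1 : ψ (Ideal.Quotient.mk q x) = ψ 0 := by rw [map_zero]; exact h
      exact Ideal.Quotient.eq_zero_iff_mem.mp (hψ h1)
    · intro h
      rw [Ideal.Quotient.eq_zero_iff_mem.mpr h, map_zero]
  · intro r
    refine norm_le_one_of_integral ?_
    exact (Algebra.IsIntegral.isIntegral (R := ℤ_[p]) (Ideal.Quotient.mk q r)).map ψ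

end Pool.Agent.Helper49.ProP
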